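import Pool.Agent.WR3.StmtsC

set_option autoImplicit false

namespace Pool.Agent.WR3.H77

open Pool.Agent.WIR Pool.Agent.WR2 Pool.Agent.WR3
open scoped BigOperators ENNReal Topology
open Filter

/-- `C(t,l) / 3 ^ l` -/
noncomputable def gg (t l : ℕ) : ℝ≥0∞ := ENNReal.ofReal ((t.choose l : ℝ) / 3 ^ l)

open Classical in
/-- the sum over the pairs `(t, l)` with `3 ^ l < 2 ^ t ≤ x 3 ^ l` -/
noncomputable def GG (x : ℝ) : ℝ≥0∞ :=
  ∑' l : ℕ, ∑' t : ℕ, if ((3 : ℝ) ^ l < 2 ^ t ∧ (2 : ℝ) ^ t ≤ x * 3 ^ l) then gg t l else 0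

open Classical in
/-- first constant -/
noncomputable def c1 : ℝ≥0∞ :=
  ∑' l : ℕ, ∑' t : ℕ, if ((3 : ℝ) ^ l < 2 * 2 ^ t ∧ (2 : ℝ) ^ t ≤ 3 ^ l) then gg t l else 0

open Classical in
/-- second constant -/
noncomputable def c2 : ℝ≥0∞ :=
  ∑' l : ℕ, ∑' t : ℕ, if ((3 : ℝ) ^ l < 2 ^ t ∧ 2 * (2 : ℝ) ^ t ≤ 3 * 3 ^ l) then gg t l else 0

open Classical in
/-- first part -/
noncomputable def AA (x : ℝ) : ℝ≥0∞ :=
  ∑' l : ℕ, ∑' t : ℕ,
    if ((3 : ℝ) ^ l < 2 * 2 ^ t ∧ 2 * (2 : ℝ) ^ t ≤ x * 3 ^ l) then gg t l else 0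

open Classical in
/-- second part -/
noncomputable def BB (x : ℝ) : ℝ≥0∞ :=
  ∑' l : ℕ, ∑' t : ℕ,
    if (3 * (3 : ℝ) ^ l < 2 * 2 ^ t ∧ 2 * (2 : ℝ) ^ t ≤ x * (3 * 3 ^ l)) then gg t l else 0

theorem mcv_lt (l t : ℕ) : (3 : ℝ) ^ l < 2 ^ t ↔ Nat.log 2 (3 ^ l) < t := by
  rw [← not_le, ← not_le, Nat.le_log_iff_pow_le (by norm_num) (by positivity)]
  exact_mod_cast Iff.rfl

theorem mcv_le (l t N : ℕ) : (2 : ℝ) ^ t ≤ 2 ^ N * 3 ^ l ↔ t ≤ N + Nat.log 2 (3 ^ l) := by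
  have h1 : N + Nat.log 2 (3 ^ l) = Nat.log 2 (2 ^ N * 3 ^ l) := by
    induction N with
    | zero => simp
    | succ N ih =>
      rw [pow_succ, mul_right_comm, Nat.log_mul_base (by norm_num) (by positivity), ← ih]
      omega
  rw [h1, Nat.le_log_iff_pow_le (by norm_num) (by positivity)]
  exact_mod_cast Iff.rfl

theorem mcv_step (N : ℕ) :
    GG (2 ^ (N + 1)) = GG (2 ^ N) + ∑' l, ENNReal.ofReal (en (N + 1) l) := by
  classical
  unfold GG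
  rw [← ENNReal.tsum_add]
  refine tsum_congr fun l => ?_
  have h1 : ENNReal.ofReal (en (N + 1) l) =
      ∑' t : ℕ, if t = Mz (N + 1) l then gg t l else 0 := by
    rw [tsum_ite_eq (Mz (N + 1) l) (fun t => gg t l)]
    rfl
  rw [h1, ← ENNReal.tsum_add]
  refine tsum_congr fun t => ?_
  have e1 := mcv_lt l t
  have e2 := mcv_le l t (N + 1)
  have e3 := mcv_le l t N
  unfold Mz
  by_cases hd : t = N + 1 + Nat.log 2 (3 ^ l)
  · rw [if_pos ⟨e1.mpr (by omega), e2.mpr (by omega)⟩,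
      if_neg (fun h => by have := e3.mp h.2; omega), if_pos hd, zero_add]
  · by_cases hc : Nat.log 2 (3 ^ l) < t ∧ t ≤ N + Nat.log 2 (3 ^ l)
    · rw [if_pos ⟨e1.mpr hc.1, e2.mpr (by omega)⟩, if_pos ⟨e1.mpr hc.1, e3.mpr hc.2⟩,
        if_neg hd, add_zero]
    · rw [if_neg (fun h => hc ⟨e1.mp h.1, by have := e2.mp h.2; omega⟩),
        if_neg (fun h => hc ⟨e1.mp h.1, e3.mp h.2⟩), if_neg hd, add_zero]

theorem mcv_one : GG (2 ^ 0) = 0 := by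
  classical
  unfold GG
  rw [ENNReal.tsum_eq_zero]
  intro l
  rw [ENNReal.tsum_eq_zero]
  intro t
  rw [if_neg]
  rintro ⟨h1, h2⟩
  rw [pow_zero, one_mul] at h2
  exact absurd h1 (not_lt.mpr h2)

theorem mcv_mono {x y : ℝ} (h : x ≤ y) : GG x ≤ GG y := by
  classical
  unfold GG
  refine ENNReal.tsum_le_tsum fun l => ENNReal.tsum_le_tsum fun t => ?_
  by_cases hc : ((3 : ℝ) ^ l < 2 ^ t ∧ (2 : ℝ) ^ t ≤ x * 3 ^ l)
  · rw [if_pos hc, if_pos ⟨hc.1, hc.2.trans (mul_le_mul_of_nonneg_right h (by positivity))⟩]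
  · rw [if_neg hc]; exact zero_le

theorem gg_zero (t : ℕ) : gg (t + 1) 0 = gg t 0 := by
  simp [gg]

theorem gg_succ (t l : ℕ) : 3 * gg (t + 1) (l + 1) = 3 * gg t (l + 1) + gg t l := by
  unfold gg
  have h3 : (3 : ℝ≥0∞) = ENNReal.ofReal 3 := by simp
  rw [h3, ← ENNReal.ofReal_mul (by norm_num), ← ENNReal.ofReal_mul (by norm_num),
    ← ENNReal.ofReal_add (by positivity) (by positivity)]
  congr 1
  rw [Nat.choose_succ_succ, Nat.cast_add, pow_succ]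
  field_simp
  ring

theorem gg_mono (t l : ℕ) : gg t l ≤ gg (t + 1) l := by
  unfold gg
  apply ENNReal.ofReal_le_ofReal
  have h1 : (t.choose l : ℝ) ≤ ((t + 1).choose l : ℝ) := by
    exact_mod_cast Nat.choose_le_choose l (Nat.le_succ t)
  gcongr

theorem mcv_split (x : ℝ) : 3 * GG x = 3 * AA x + BB x := by
  classical
  unfold GG
  set h : ℕ → ℕ → ℝ≥0∞ := fun l t =>
    if ((3 : ℝ) ^ l < 2 ^ t ∧ (2 : ℝ) ^ t ≤ x * 3 ^ l) then gg t l else 0 with hh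
  have e1 : ∀ l, ∑' t, h l t = ∑' t, h l (t + 1) := by
    intro l
    rw [tsum_eq_zero_add' ENNReal.summable]
    have : h l 0 = 0 := by
      simp only [hh]
      rw [if_neg]
      rintro ⟨h1, _⟩
      have : (1 : ℝ) ≤ 3 ^ l := one_le_pow₀ (by norm_num)
      rw [pow_zero] at h1
      linarith
    rw [this, zero_add]
  have e2 : ∑' l, ∑' t, h l t = ∑' l, ∑' t, h l (t + 1) := tsum_congr e1
  rw [e2, tsum_eq_zero_add' ENNReal.summable]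
  set a : ℕ → ℕ → ℝ≥0∞ := fun l t =>
    if ((3 : ℝ) ^ l < 2 * 2 ^ t ∧ 2 * (2 : ℝ) ^ t ≤ x * 3 ^ l) then gg t l else 0 with ha
  have e3 : AA x = ∑' t, a 0 t + ∑' l, ∑' t, a (l + 1) t := by
    unfold AA
    rw [tsum_eq_zero_add' ENNReal.summable]
  have e4 : ∑' t, h 0 (t + 1) = ∑' t, a 0 t := by
    refine tsum_congr fun t => ?_
    simp only [hh, ha]
    rw [pow_succ, mul_comm ((2 : ℝ) ^ t) 2, gg_zero]
  have e5 : 3 * ∑' l, ∑' t, h (l + 1) (t + 1) = 3 * ∑' l, ∑' t, a (l + 1) t + BB x := by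
    unfold BB
    rw [← ENNReal.tsum_mul_left, ← ENNReal.tsum_mul_left, ← ENNReal.tsum_add]
    refine tsum_congr fun l => ?_
    rw [← ENNReal.tsum_mul_left, ← ENNReal.tsum_mul_left, ← ENNReal.tsum_add]
    refine tsum_congr fun t => ?_
    simp only [hh, ha]
    rw [pow_succ (2 : ℝ), mul_comm ((2 : ℝ) ^ t) 2, pow_succ (3 : ℝ), mul_comm ((3 : ℝ) ^ l) 3]
    by_cases hc : (3 * (3 : ℝ) ^ l < 2 * 2 ^ t ∧ 2 * (2 : ℝ) ^ t ≤ x * (3 * 3 ^ l))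
    · rw [if_pos hc, if_pos hc, if_pos hc, gg_succ]
    · rw [if_neg hc, if_neg hc, if_neg hc]; simp
  rw [mul_add, e4, e5, e3, mul_add, add_assoc]

theorem mcv_A (x : ℝ) (hx : 2 ≤ x) : AA x = GG (x / 2) + c1 := by
  classical
  unfold AA GG c1
  rw [← ENNReal.tsum_add]
  refine tsum_congr fun l => ?_
  rw [← ENNReal.tsum_add]
  refine tsum_congr fun t => ?_
  have h3 : (0 : ℝ) < 3 ^ l := by positivity
  have h2 : (0 : ℝ) < 2 ^ t := by positivity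
  by_cases hc : (3 : ℝ) ^ l < 2 ^ t
  · have n2 : ¬ ((3 : ℝ) ^ l < 2 * 2 ^ t ∧ (2 : ℝ) ^ t ≤ 3 ^ l) := fun h => by linarith [h.2]
    rw [if_neg n2, add_zero]
    have hiff : ((3 : ℝ) ^ l < 2 * 2 ^ t ∧ 2 * (2 : ℝ) ^ t ≤ x * 3 ^ l) ↔
        ((3 : ℝ) ^ l < 2 ^ t ∧ (2 : ℝ) ^ t ≤ x / 2 * 3 ^ l) := by
      constructor
      · rintro ⟨_, h5⟩; exact ⟨hc, by linarith⟩
      · rintro ⟨_, h5⟩; exact ⟨by linarith, by linarith⟩
    by_cases hq : ((3 : ℝ) ^ l < 2 * 2 ^ t ∧ 2 * (2 : ℝ) ^ t ≤ x * 3 ^ l)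
    · rw [if_pos hq, if_pos (hiff.mp hq)]
    · rw [if_neg hq, if_neg (fun h => hq (hiff.mpr h))]
  · have n1 : ¬ ((3 : ℝ) ^ l < 2 ^ t ∧ (2 : ℝ) ^ t ≤ x / 2 * 3 ^ l) := fun h => hc h.1
    rw [if_neg n1, zero_add]
    have hc' : (2 : ℝ) ^ t ≤ 3 ^ l := not_lt.mp hc
    have hiff : ((3 : ℝ) ^ l < 2 * 2 ^ t ∧ 2 * (2 : ℝ) ^ t ≤ x * 3 ^ l) ↔
        ((3 : ℝ) ^ l < 2 * 2 ^ t ∧ (2 : ℝ) ^ t ≤ 3 ^ l) := by
      constructor
      · rintro ⟨h4, _⟩; exact ⟨h4, hc'⟩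
      · rintro ⟨h4, _⟩; exact ⟨h4, by nlinarith⟩
    by_cases hq : ((3 : ℝ) ^ l < 2 * 2 ^ t ∧ 2 * (2 : ℝ) ^ t ≤ x * 3 ^ l)
    · rw [if_pos hq, if_pos (hiff.mp hq)]
    · rw [if_neg hq, if_neg (fun h => hq (hiff.mpr h))]

theorem mcv_B (x : ℝ) (hx : 1 ≤ x) : GG (3 * x / 2) = BB x + c2 := by
  classical
  unfold BB GG c2
  rw [← ENNReal.tsum_add]
  refine tsum_congr fun l => ?_
  rw [← ENNReal.tsum_add]
  refine tsum_congr fun t => ?_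
  have h3 : (0 : ℝ) < 3 ^ l := by positivity
  have h2 : (0 : ℝ) < 2 ^ t := by positivity
  by_cases hc : 3 * (3 : ℝ) ^ l < 2 * 2 ^ t
  · have n2 : ¬ ((3 : ℝ) ^ l < 2 ^ t ∧ 2 * (2 : ℝ) ^ t ≤ 3 * 3 ^ l) := fun h => by linarith [h.2]
    rw [if_neg n2, add_zero]
    have hiff : ((3 : ℝ) ^ l < 2 ^ t ∧ (2 : ℝ) ^ t ≤ 3 * x / 2 * 3 ^ l) ↔
        (3 * (3 : ℝ) ^ l < 2 * 2 ^ t ∧ 2 * (2 : ℝ) ^ t ≤ x * (3 * 3 ^ l)) := by
      constructor
      · rintro ⟨_, h5⟩; exact ⟨hc, by linarith⟩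
      · rintro ⟨_, h5⟩; exact ⟨by linarith, by linarith⟩
    by_cases hq : ((3 : ℝ) ^ l < 2 ^ t ∧ (2 : ℝ) ^ t ≤ 3 * x / 2 * 3 ^ l)
    · rw [if_pos hq, if_pos (hiff.mp hq)]
    · rw [if_neg hq, if_neg (fun h => hq (hiff.mpr h))]
  · have n1 : ¬ (3 * (3 : ℝ) ^ l < 2 * 2 ^ t ∧ 2 * (2 : ℝ) ^ t ≤ x * (3 * 3 ^ l)) :=
      fun h => hc h.1
    rw [if_neg n1, zero_add]
    have hc' : 2 * (2 : ℝ) ^ t ≤ 3 * 3 ^ l := not_lt.mp hc
    have hiff : ((3 : ℝ) ^ l < 2 ^ t ∧ (2 : ℝ) ^ t ≤ 3 * x / 2 * 3 ^ l) ↔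
        ((3 : ℝ) ^ l < 2 ^ t ∧ 2 * (2 : ℝ) ^ t ≤ 3 * 3 ^ l) := by
      constructor
      · rintro ⟨h4, _⟩; exact ⟨h4, hc'⟩
      · rintro ⟨h4, _⟩; exact ⟨h4, by nlinarith⟩
    by_cases hq : ((3 : ℝ) ^ l < 2 ^ t ∧ (2 : ℝ) ^ t ≤ 3 * x / 2 * 3 ^ l)
    · rw [if_pos hq, if_pos (hiff.mp hq)]
    · rw [if_neg hq, if_neg (fun h => hq (hiff.mpr h))]

theorem mcv_c1 : c1 ≤ GG 2 := by
  classical
  unfold c1 GG
  refine ENNReal.tsum_le_tsum fun l => ?_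
  refine le_trans ?_ (ENNReal.tsum_comp_le_tsum_of_injective (f := fun t : ℕ => t + 1)
    (add_left_injective 1) _)
  refine ENNReal.tsum_le_tsum fun t => ?_
  by_cases hc : ((3 : ℝ) ^ l < 2 * 2 ^ t ∧ (2 : ℝ) ^ t ≤ 3 ^ l)
  · rw [if_pos hc, if_pos]
    · exact gg_mono t l
    · rw [pow_succ]
      exact ⟨by linarith [hc.1], by linarith [hc.2]⟩
  · rw [if_neg hc]; exact zero_le

theorem mcv_c2 : c2 ≤ GG 2 := by
  classical
  unfold c2 GG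
  refine ENNReal.tsum_le_tsum fun l => ENNReal.tsum_le_tsum fun t => ?_
  have h3 : (0 : ℝ) < 3 ^ l := by positivity
  by_cases hc : ((3 : ℝ) ^ l < 2 ^ t ∧ 2 * (2 : ℝ) ^ t ≤ 3 * 3 ^ l)
  · rw [if_pos hc, if_pos]
    exact ⟨hc.1, by linarith [hc.2]⟩
  · rw [if_neg hc]; exact zero_le

theorem mcv (hC : CvgStmt) (hU : UsbStmt) (hT : TybStmt) : McvStmt := by
  obtain ⟨CT, hCT⟩ := hT
  have hen0 : ∀ n l, 0 ≤ en n l := fun n l => by unfold en; positivity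
  have hsum : ∀ N, ∑' l, ENNReal.ofReal (en (N + 1) l) = ENNReal.ofReal (∑' l, en (N + 1) l) :=
    fun N => (ENNReal.ofReal_tsum_of_nonneg (hen0 (N + 1)) (hCT (N + 1) (by omega)).1).symm
  have hfin : ∀ N : ℕ, GG (2 ^ N) ≠ ⊤ := by
    intro N
    induction N with
    | zero => rw [mcv_one]; exact ENNReal.zero_ne_top
    | succ N ih =>
      rw [mcv_step, hsum]
      exact ENNReal.add_ne_top.mpr ⟨ih, ENNReal.ofReal_ne_top⟩
  have hfin' : ∀ x : ℝ, GG x ≠ ⊤ := by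
    intro x
    obtain ⟨N, hN⟩ := pow_unbounded_of_one_lt x (by norm_num : (1 : ℝ) < 2)
    exact ne_top_of_le_ne_top (hfin N) (mcv_mono hN.le)
  have hc1 : c1 ≠ ⊤ := ne_top_of_le_ne_top (hfin' 2) mcv_c1
  have hc2 : c2 ≠ ⊤ := ne_top_of_le_ne_top (hfin' 2) mcv_c2
  have hs0 : ∀ N, 0 ≤ ∑' l, en (N + 1) l := fun N => tsum_nonneg (hen0 (N + 1))
  have hstep : ∀ N : ℕ, (GG (2 ^ (N + 1))).toReal = (GG (2 ^ N)).toReal + ∑' l, en (N + 1) l := by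
    intro N
    rw [mcv_step, hsum, ENNReal.toReal_add (hfin N) ENNReal.ofReal_ne_top,
      ENNReal.toReal_ofReal (hs0 N)]
  have hbd : ∀ N : ℕ, (GG (2 ^ N)).toReal ≤ 84 * 2 ^ N := by
    intro N
    induction N with
    | zero => rw [mcv_one]; norm_num
    | succ N ih =>
      rw [hstep]
      have h1 := hU (N + 1) (by omega)
      rw [pow_succ] at h1 ⊢
      linarith
  have hrec : ∀ x : ℝ, 2 ≤ x → (GG x).toReal - (GG (x / 2)).toReal - (GG (3 * x / 2)).toReal / 3 =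
      c1.toReal - c2.toReal / 3 := by
    intro x hx
    have h1 : 3 * GG x + c2 = 3 * GG (x / 2) + 3 * c1 + GG (3 * x / 2) := by
      rw [mcv_split, mcv_A x hx, mcv_B x (by linarith), mul_add, add_assoc]
    have h2 := congrArg ENNReal.toReal h1
    have h3 : ∀ y : ℝ, (3 : ℝ≥0∞) * GG y ≠ ⊤ := fun y =>
      ENNReal.mul_ne_top (by norm_num) (hfin' y)
    have h4 : (3 : ℝ≥0∞) * c1 ≠ ⊤ := ENNReal.mul_ne_top (by norm_num) hc1
    rw [ENNReal.toReal_add (h3 x) hc2, ENNReal.toReal_add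
      (ENNReal.add_ne_top.mpr ⟨h3 (x / 2), h4⟩) (hfin' (3 * x / 2)),
      ENNReal.toReal_add (h3 (x / 2)) h4, ENNReal.toReal_mul, ENNReal.toReal_mul,
      ENNReal.toReal_mul] at h2
    have h5 : (3 : ℝ≥0∞).toReal = 3 := by simp
    rw [h5] at h2
    linarith
  obtain ⟨ρ, hρ, hlim⟩ := hC (fun x => (GG x).toReal)
    (fun x y _ hxy => ENNReal.toReal_mono (hfin' y) (mcv_mono hxy))
    (fun x => ENNReal.toReal_nonneg)
    ⟨168, fun x hx => by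
      obtain ⟨N, h1, h2⟩ := exists_nat_pow_near hx (by norm_num : (1 : ℝ) < 2)
      have h3 : (GG x).toReal ≤ (GG (2 ^ (N + 1))).toReal :=
        ENNReal.toReal_mono (hfin _) (mcv_mono h2.le)
      have h4 := hbd (N + 1)
      rw [pow_succ] at h4
      show (GG x).toReal ≤ 168 * x
      rw [pow_succ] at h3
      linarith⟩
    ⟨4 * (c1.toReal + c2.toReal), 2, fun x hx => by
      show |(GG x).toReal - (GG (x / 2)).toReal - (GG (3 * x / 2)).toReal / 3| ≤ _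
      rw [hrec x hx]
      have p1 : 0 ≤ c1.toReal := ENNReal.toReal_nonneg
      have p2 : 0 ≤ c2.toReal := ENNReal.toReal_nonneg
      have p3 : |c1.toReal - c2.toReal / 3| ≤ c1.toReal + c2.toReal := by
        rw [abs_le]; constructor <;> linarith
      have p4 : 0 < Real.log x := Real.log_pos (by linarith)
      have p5 : Real.log x ≤ 2 * Real.sqrt x := by
        have q1 : 0 < Real.sqrt x := Real.sqrt_pos.mpr (by linarith)
        have q2 := Real.log_le_sub_one_of_pos q1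
        rw [Real.log_sqrt (by linarith)] at q2
        linarith
      have p6 : Real.log x ^ 2 ≤ 4 * x := by
        have q3 : Real.log x ^ 2 ≤ (2 * Real.sqrt x) ^ 2 := pow_le_pow_left₀ p4.le p5 2
        rw [mul_pow, Real.sq_sqrt (by linarith)] at q3
        linarith
      refine p3.trans ?_
      rw [le_div_iff₀ (by positivity)]
      nlinarith⟩
  have hpow : Tendsto (fun n : ℕ => (2 : ℝ) ^ n) atTop atTop :=
    tendsto_pow_atTop_atTop_of_one_lt (by norm_num)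
  have hl1 : Tendsto (fun n : ℕ => (GG (2 ^ n)).toReal / 2 ^ n) atTop (𝓝 ρ) := hlim.comp hpow
  have hl2 : Tendsto (fun n : ℕ => (GG (2 ^ (n + 1))).toReal / 2 ^ (n + 1) -
      (GG (2 ^ n)).toReal / 2 ^ n / 2) atTop (𝓝 (ρ - ρ / 2)) :=
    ((tendsto_add_atTop_iff_nat (f := fun n : ℕ => (GG (2 ^ n)).toReal / 2 ^ n) 1).mpr hl1).sub
      (hl1.div_const 2)
  refine ⟨ρ - ρ / 2, by linarith, ?_⟩
  rw [← tendsto_add_atTop_iff_nat 1]
  refine hl2.congr fun n => ?_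
  rw [hstep, pow_succ]
  have : (0 : ℝ) < 2 ^ n := by positivity
  field_simp
  ring

end Pool.Agent.WR3.H77
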